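import Pool.Agent.TH144.CN.Main

/-!
# A Kobayashi hyperbolic projective surface with a negative conormal intersection number

`X ⊆ P² × P²` is the surface `b₀⁴ + b₁⁴ + b₂⁴ = 0`, `b₀ A(x) + 2 b₁ G(x) = 0` with
`A = x₀²⁴⁰ x₂¹⁶ + x₁²⁵⁶ + x₀¹⁶ x₁²⁴⁰` and `G = x₀²⁵⁶ + x₁²⁵⁶ + γ x₂²⁵⁶`, fibred over the Fermat
quartic. The curve `Z` is the fibre `A = 0` over a point with `b₁ = 0`. Its normalization is the
Fermat curve of degree `16`, with `2 g - 2 = 208`, and at the point `(0 : 0 : 1)` it has `16`
branches of multiplicity `15`, so that `T*_Z X · T*_X X = 208 - 16 · 14 = -16`.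
-/

set_option autoImplicit false

namespace Pool.Agent.Results.MP_225e67_ag.NegativeConormal

open Pool.Agent.TH144.CN

theorem result : ∃ X Z : ClosedSet,
    -- `X` is a smooth connected projective surface
    X.SmoothSurface ∧ X.Connected ∧
    -- `X` is Kobayashi hyperbolic
    KobayashiHyperbolic X.points ∧
    -- `Z` is contained in `X`
    (∀ b x : Fin 3 → ℂ, Z.Mem b x → X.Mem b x) ∧
    -- `Z` is an irreducible curve with function field `K` and generic point `(b, x)`
    ∃ (K : Type) (_ : Field K) (_ : Algebra ℂ K) (b x : Fin 3 → K),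
      Z.FunctionField K b x ∧ Algebra.trdeg ℂ K = 1 ∧
      -- there is a nonzero rational vector field `D` on `Z`, and for every such `D` the
      -- intersection number `T*_Z X · T*_X X`, computed by the index formula and on the conormal
      -- variety, is `-16`
      (∃ D : Derivation ℂ K K, D ≠ 0) ∧
      ∀ D : Derivation ℂ K K, D ≠ 0 → indexNumber b x D = -16 ∧ conormalNumber b x D = -16 :=
  main

end Pool.Agent.Results.MP_225e67_ag.NegativeConormal
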